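import Pool.Agent.H500.R2.Stm
import Pool.Agent.H500.HC.All

/-!
# Subtask 4985 of helper500: R2, part 11 (weight two: the types)
-/

set_option autoImplicit false
set_option linter.unusedSectionVars false

namespace Pool.Agent.H333.R2.Eis

open NumberField IsDedekindDomain
open Pool.Agent.H500.R2
open Pool.Agent.H500.HC

theorem main : Pool.Agent.H500.R2.S_Eis := by
  intro K E _ _ _ _ hcard j N M a b t ψ hN hM hψ hv
  classical
  have hψv : ∀ (i : Fin 2) (v : HeightOneSpectrum (𝓞 K)) (x : 𝓞 K), v.asIdeal = Ideal.span {x} →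
      InRay N x → ψ i v.asIdeal = jz j (typ (t i) x) := by
    intro i v x hvx hx
    rw [hvx]
    exact hψ i x hx
  have key : ∀ σ : K →+* E, t 0 σ + t 1 σ = 1 := by
    intro σ
    obtain ⟨B, hB⟩ := all_Nrm K E hcard
    obtain ⟨w, y, hw, hdvd, hpos, hprime, hBw⟩ := all_Dir E N 1 hN (by
      rw [Ideal.isCoprime_iff_sup_eq, Ideal.span_singleton_one, top_sup_eq]) (max B (max N (discr E).natAbs))
    have hB1 : B < Ideal.absNorm w.asIdeal := lt_of_le_of_lt (le_max_left _ _) hBw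
    have hB2 : N < Ideal.absNorm w.asIdeal :=
      lt_of_le_of_lt ((le_max_left _ _).trans (le_max_right _ _)) hBw
    have hB3 : (discr E).natAbs < Ideal.absNorm w.asIdeal :=
      lt_of_le_of_lt ((le_max_right _ _).trans (le_max_right _ _)) hBw
    have hy0 : y ≠ 0 := by
      rintro rfl
      apply w.ne_bot
      rw [hw, Ideal.span_singleton_eq_bot]
    obtain ⟨v, x, hvx, hx, hnorm, h1, h2, h3⟩ := hB w y N hw hprime hB1 hN ⟨hy0, hdvd, hpos⟩ σ
    have hpsq := Pool.Agent.H115.HC.Nrm.not_mem_sq w hprime hB3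
    have hpw : ((Ideal.absNorm w.asIdeal : ℕ) : 𝓞 E) ∈ w.asIdeal := Ideal.absNorm_mem _
    have hNv : (N : 𝓞 K) ∉ v.asIdeal := by
      intro hmem
      have hpv : ((Ideal.absNorm w.asIdeal : ℕ) : 𝓞 K) ∈ v.asIdeal := by
        rw [← hnorm]
        exact Ideal.absNorm_mem _
      have hcop : Nat.Coprime N (Ideal.absNorm w.asIdeal) :=
        ((Nat.Prime.coprime_iff_not_dvd hprime).2 fun h =>
          absurd (Nat.le_of_dvd hN h) (not_le.2 hB2)).symm
      obtain ⟨r, s, hrs⟩ := Nat.isCoprime_iff_coprime.2 hcop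
      have h4 : (r : 𝓞 K) * (N : 𝓞 K) + (s : 𝓞 K) * ((Ideal.absNorm w.asIdeal : ℕ) : 𝓞 K) = 1 := by
        exact_mod_cast congrArg (Int.cast : ℤ → 𝓞 K) hrs
      apply v.isPrime.ne_top
      rw [Ideal.eq_top_iff_one, ← h4]
      exact v.asIdeal.add_mem (v.asIdeal.mul_mem_left _ hmem) (v.asIdeal.mul_mem_left _ hpv)
    obtain ⟨hb, -, hprod⟩ := hv v hNv
    rw [hψv 0 v x hvx hx, hψv 1 v x hvx hx, ← map_mul, hnorm] at hprod
    have heq : b v * ((Ideal.absNorm w.asIdeal : ℕ) : 𝓞 E) = typ (t 0) x * typ (t 1) x :=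
      jz_inj j hprod
    have hR : typ (t 0) x * typ (t 1) x = em σ x ^ (t 0 σ + t 1 σ) *
        ∏ τ ∈ Finset.univ.erase σ, em τ x ^ (t 0 τ + t 1 τ) := by
      rw [Finset.mul_prod_erase Finset.univ (fun τ => em τ x ^ (t 0 τ + t 1 τ))
        (Finset.mem_univ σ), typ, typ, ← Finset.prod_mul_distrib]
      exact Finset.prod_congr rfl fun τ _ => (pow_add _ _ _).symm
    have hbu : IsUnit (b v) := IsUnit.of_pow_eq_one hb hM.ne'
    have hwp : w.asIdeal.IsPrime := w.isPrime
    rcases lt_trichotomy (t 0 σ + t 1 σ) 1 with h | h | h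
    · exfalso
      have h0 : t 0 σ + t 1 σ = 0 := by omega
      have h5 : typ (t 0) x * typ (t 1) x ∈ w.asIdeal := by
        rw [← heq]
        exact w.asIdeal.mul_mem_left _ hpw
      rw [hR, h0, pow_zero, one_mul] at h5
      obtain ⟨τ, hτ, h6⟩ := hwp.prod_mem_iff.1 h5
      exact h3 τ (Finset.ne_of_mem_erase hτ) (hwp.mem_of_pow_mem _ h6)
    · exact h
    · exfalso
      have h5 : typ (t 0) x * typ (t 1) x ∈ w.asIdeal ^ 2 := by
        rw [hR]
        exact (w.asIdeal ^ 2).mul_mem_right _ (Ideal.pow_le_pow_right h (Ideal.pow_mem_pow h1 _))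
      rw [← heq] at h5
      apply hpsq
      obtain ⟨u, hu⟩ := hbu
      have h6 := (w.asIdeal ^ 2).mul_mem_left ((u⁻¹ : (𝓞 E)ˣ) : 𝓞 E) h5
      rwa [← hu, Units.inv_mul_cancel_left] at h6
  refine ⟨fun σ => t 0 σ = 1, ?_⟩
  intro v x hNv hvx hx
  obtain ⟨-, ha, -⟩ := hv v hNv
  rw [hψv 0 v x hvx hx, hψv 1 v x hvx hx, ← map_add] at ha
  have h1 := jz_inj j ha
  rw [h1]
  congr 1
  · unfold typ
    refine Finset.prod_congr rfl fun σ _ => ?_
    have hk := key σ
    split_ifs with h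
    · rw [h, pow_one]
    · have h0 : t 0 σ = 0 := by omega
      rw [h0, pow_zero]
  · unfold typ
    refine Finset.prod_congr rfl fun σ _ => ?_
    have hk := key σ
    split_ifs with h
    · have h0 : t 1 σ = 0 := by omega
      rw [h0, pow_zero]
    · have h0 : t 1 σ = 1 := by omega
      rw [h0, pow_one]

end Pool.Agent.H333.R2.Eis
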